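import Mathlib

set_option autoImplicit false

open MeasureTheory Set Filter Topology
open scoped ENNReal Pointwise

namespace Pool.Agent.Results.MP_a80f1a_gt.Octa

/-- difference quotient `(λ(A ⊕ δK) - λ(A)) / δ` -/
noncomputable def quo {d : ℕ} (K A : Set (Fin d → ℝ)) (δ : ℝ) : ℝ≥0∞ :=
  (volume (A + δ • K) - volume A) / ENNReal.ofReal δ

/-- lower `K`-surface area -/
noncomputable def lower {d : ℕ} (K A : Set (Fin d → ℝ)) : ℝ≥0∞ := liminf (quo K A) (𝓝[>] 0)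

/-- upper `K`-surface area -/
noncomputable def upper {d : ℕ} (K A : Set (Fin d → ℝ)) : ℝ≥0∞ := limsup (quo K A) (𝓝[>] 0)

/-- `K(x₀; r) = x₀ + r (K - c)` -/
def tr {d : ℕ} (K : Set (Fin d → ℝ)) (c x₀ : Fin d → ℝ) (r : ℝ) : Set (Fin d → ℝ) :=
  (fun y => x₀ + r • (y - c)) '' K

abbrev V := Fin 3 → ℝ

def B (r : ℝ) : Set V := {x | |x 0| + |x 1| + |x 2| ≤ r}

lemma volB {r : ℝ} (hr : 0 ≤ r) : volume (B r) = ENNReal.ofReal (r ^ 3 * (4 / 3)) := by
  have h := volume_sum_rpow_le (Fin 3) (p := 1) le_rfl r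
  simp only [Real.rpow_one, div_one, Fin.sum_univ_three, Fintype.card_fin] at h
  have g1 : Real.Gamma (1 + 1) = 1 := by simpa using Real.Gamma_nat_eq_factorial 1
  have g2 : Real.Gamma ((3 : ℕ) + 1) = 6 := by
    rw [Real.Gamma_nat_eq_factorial 3]; norm_num [Nat.factorial]
  rw [g1, g2, ← ENNReal.ofReal_pow hr, ← ENNReal.ofReal_mul (by positivity)] at h
  rw [B, h]
  norm_num

lemma B_add {r s : ℝ} {x y : V} (hx : x ∈ B r) (hy : y ∈ B s) : x + y ∈ B (r + s) := by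
  simp only [B, mem_setOf_eq, Pi.add_apply] at *
  linarith [abs_add_le (x 0) (y 0), abs_add_le (x 1) (y 1), abs_add_le (x 2) (y 2)]

lemma B_smul {r s : ℝ} (hs : 0 ≤ s) {x : V} (hx : x ∈ B r) : s • x ∈ B (s * r) := by
  simp only [B, mem_setOf_eq, Pi.smul_apply, smul_eq_mul, abs_mul, abs_of_nonneg hs] at *
  nlinarith

lemma B_compact : IsCompact (B 1) := by
  refine Metric.isCompact_of_isClosed_isBounded (isClosed_le (by fun_prop) (by fun_prop)) ?_
  refine (Metric.isBounded_closedBall (x := 0) (r := 1)).subset fun x hx => ?_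
  rw [mem_closedBall_zero_iff, pi_norm_le_iff_of_nonneg zero_le_one]
  intro i
  have := abs_nonneg (x 0); have := abs_nonneg (x 1); have := abs_nonneg (x 2)
  simp only [B, mem_setOf_eq] at hx
  fin_cases i <;> simp <;> linarith

lemma up : upper (B 1) (tr (B 1) 0 0 (2 * 1)) ≤ ENNReal.ofReal (161 / 10) := by
  apply limsup_le_of_le (by isBoundedDefault)
  filter_upwards [Ioo_mem_nhdsGT (show (0 : ℝ) < 1 / 100 by norm_num)] with δ ⟨h0, h1⟩
  have e1 : B 2 ⊆ tr (B 1) 0 0 (2 * 1) := fun x hx =>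
    ⟨(1 / 2 : ℝ) • x, by simpa using B_smul (s := 1 / 2) (by norm_num) hx, by simp [smul_smul]⟩
  have e2 : tr (B 1) 0 0 (2 * 1) + δ • B 1 ⊆ B (2 + δ) := by
    rintro _ ⟨_, ⟨x, hx, rfl⟩, _, ⟨y, hy, rfl⟩, rfl⟩
    simpa using B_add (B_smul zero_le_two hx) (B_smul h0.le hy)
  apply ENNReal.div_le_of_le_mul
  refine (tsub_le_tsub (measure_mono e2) (measure_mono e1)).trans ?_
  rw [volB (by positivity), volB (by norm_num), ← ENNReal.ofReal_sub _ (by norm_num),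
    ← ENNReal.ofReal_mul (by norm_num)]
  apply ENNReal.ofReal_le_ofReal
  nlinarith [mul_pos h0 h0, mul_pos h0 (mul_pos h0 h0)]

def I (a b : ℝ) : Set ℝ := {t | a < |t| ∧ |t| < b}

lemma I_meas (a b : ℝ) : MeasurableSet (I a b) := measurableSet_Ioo.preimage (f := fun t : ℝ => |t|) (by fun_prop)

lemma volI {a b : ℝ} (ha : 0 ≤ a) (hab : a ≤ b) : ENNReal.ofReal (2 * (b - a)) ≤ volume (I a b) := by
  have h : Ioo a b ∪ Ioo (-b) (-a) ⊆ I a b := by
    rintro t (⟨h1, h2⟩ | ⟨h1, h2⟩)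
    · exact ⟨by rwa [abs_of_nonneg (by linarith)], by rwa [abs_of_nonneg (by linarith)]⟩
    · constructor <;> rw [abs_of_nonpos (by linarith)] <;> linarith
  refine le_trans ?_ (measure_mono h)
  rw [measure_union (Set.disjoint_left.2 fun t h1 h2 => by linarith [h1.1, h2.2]) measurableSet_Ioo,
    Real.volume_Ioo, Real.volume_Ioo, ← ENNReal.ofReal_add (by linarith) (by linarith)]
  apply le_of_eq; congr 1; ring

def g (t : ℝ) : ℝ := 1 - |(|t| - 1)|

def Q (δ : ℝ) : Set (ℝ × ℝ) := {p | 1 / 2 < |p.1| ∧ p.2 ∈ I δ (g p.1)}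

lemma Q_meas (δ : ℝ) : MeasurableSet (Q δ) := by
  unfold Q I g
  simp only [mem_setOf_eq]
  measurability

lemma volQ {δ : ℝ} (h0 : 0 < δ) (h1 : δ < 1 / 100) : ENNReal.ofReal (27 / 10) ≤ volume (Q δ) := by
  have h : ((I (1 / 2) (3 / 4) ×ˢ I δ (1 / 2) ∪ I (3 / 4) (5 / 4) ×ˢ I δ (3 / 4)) ∪
      I (5 / 4) (3 / 2) ×ˢ I δ (1 / 2)) ∪ I (3 / 2) (7 / 4) ×ˢ I δ (1 / 4) ⊆ Q δ := by
    rintro ⟨t, s⟩ (((⟨⟨a, b⟩, c, d⟩ | ⟨⟨a, b⟩, c, d⟩) | ⟨⟨a, b⟩, c, d⟩) | ⟨⟨a, b⟩, c, d⟩) <;>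
      refine ⟨by linarith, c, ?_⟩ <;> simp only [g] at * <;>
      cases abs_cases (|t| - 1) <;> linarith
  have v : ∀ a b c : ℝ, 0 ≤ a → a ≤ b → δ ≤ c →
      ENNReal.ofReal (2 * (b - a) * (2 * (c - δ))) ≤ volume (I a b ×ˢ I δ c) := by
    intro a b c ha hb hc
    rw [Measure.volume_eq_prod, Measure.prod_prod, ENNReal.ofReal_mul (by linarith)]
    exact mul_le_mul' (volI ha hb) (volI h0.le hc)
  refine le_trans ?_ (measure_mono h)
  rw [measure_union _ ((I_meas _ _).prod (I_meas _ _)),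
    measure_union _ ((I_meas _ _).prod (I_meas _ _)),
    measure_union _ ((I_meas _ _).prod (I_meas _ _))]
  · refine le_trans ?_ (add_le_add (add_le_add (add_le_add
      (v _ _ _ (by norm_num) (by norm_num) (by linarith))
      (v _ _ _ (by norm_num) (by norm_num) (by linarith)))
      (v _ _ _ (by norm_num) (by norm_num) (by linarith)))
      (v _ _ _ (by norm_num) (by norm_num) (by linarith)))
    rw [← ENNReal.ofReal_add (by nlinarith) (by nlinarith),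
      ← ENNReal.ofReal_add (by nlinarith) (by nlinarith),
      ← ENNReal.ofReal_add (by nlinarith) (by nlinarith)]
    apply ENNReal.ofReal_le_ofReal
    linarith
  all_goals rw [Set.disjoint_left]
  · rintro p ⟨⟨a, b⟩, -⟩ ⟨⟨c, d⟩, -⟩; linarith
  · rintro p (⟨⟨a, b⟩, -⟩ | ⟨⟨a, b⟩, -⟩) ⟨⟨c, d⟩, -⟩ <;> linarith
  · rintro p ((⟨⟨a, b⟩, -⟩ | ⟨⟨a, b⟩, -⟩) | ⟨⟨a, b⟩, -⟩) ⟨⟨c, d⟩, -⟩ <;> linarith

def S0 (δ : ℝ) : Set (ℝ × ℝ × ℝ) :=
  {p | p.2 ∈ Q δ ∧ p.1 ∈ I (g p.2.1 - |p.2.2|) (g p.2.1 - |p.2.2| + δ)}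

lemma S0_meas (δ : ℝ) : MeasurableSet (S0 δ) := by
  have h := Q_meas δ
  have h2 : MeasurableSet {p : ℝ × ℝ × ℝ | g p.2.1 - |p.2.2| < |p.1| ∧
      |p.1| < g p.2.1 - |p.2.2| + δ} := by
    unfold g
    measurability
  exact (h.preimage measurable_snd).inter h2

lemma volS0 {δ : ℝ} (h0 : 0 < δ) (h1 : δ < 1 / 100) :
    ENNReal.ofReal (27 / 5 * δ) ≤ volume (S0 δ) := by
  rw [Measure.volume_eq_prod, Measure.prod_apply_symm (S0_meas δ)]
  calc ENNReal.ofReal (27 / 5 * δ) = ENNReal.ofReal (2 * δ) * ENNReal.ofReal (27 / 10) := by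
        rw [← ENNReal.ofReal_mul (by linarith)]; congr 1; ring
    _ ≤ ENNReal.ofReal (2 * δ) * volume (Q δ) := by gcongr; exact volQ h0 h1
    _ ≤ _ := by
      rw [← lintegral_indicator_const (Q_meas δ)]
      apply lintegral_mono
      intro q
      by_cases hq : q ∈ Q δ
      · rw [indicator_of_mem hq]
        have := volI (a := g q.1 - |q.2|) (b := g q.1 - |q.2| + δ) (by linarith [hq.2.2])
          (by linarith)
        rw [add_sub_cancel_left] at this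
        exact this.trans (measure_mono fun t ht => ⟨hq, ht⟩)
      · simp [hq]

lemma mp (e : Equiv.Perm (Fin 3)) :
    MeasurePreserving (fun x : V => (x (e 2), (x (e 0), x (e 1)))) volume volume := by
  have h1 := volume_preserving_piFinSuccAbove (fun _ : Fin 3 => ℝ) 2
  have h2 := (MeasurePreserving.id (volume : Measure ℝ)).prod (volume_preserving_finTwoArrow ℝ)
  have h3 := (volume_measurePreserving_piCongrLeft (fun _ : Fin 3 => ℝ) e).symm
  exact (h2.comp h1).comp h3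

def S (δ : ℝ) (e : Equiv.Perm (Fin 3)) : Set V :=
  (fun x : V => (x (e 2), (x (e 0), x (e 1)))) ⁻¹' S0 δ

lemma S_meas (δ : ℝ) (e : Equiv.Perm (Fin 3)) : MeasurableSet (S δ e) :=
  (mp e).measurable (S0_meas δ)

lemma S_dom {δ : ℝ} {e : Equiv.Perm (Fin 3)} {x : V} (h : x ∈ S δ e) :
    |x (e 1)| < |x (e 0)| ∧ |x (e 2)| < |x (e 0)| ∧ 1 / 2 < |x (e 0)| ∧
    1 < |(|x (e 0)| - 1)| + |x (e 1)| + |x (e 2)| ∧
    |(|x (e 0)| - 1)| + |x (e 1)| + |x (e 2)| < 1 + δ := by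
  obtain ⟨⟨a, b, c⟩, d, f⟩ := h
  simp only [g] at *
  have := neg_abs_le (|x (e 0)| - 1)
  refine ⟨?_, ?_, ?_, ?_, ?_⟩ <;> linarith

def pt : Fin 6 → V := ![![1, 0, 0], ![-1, 0, 0], ![0, 1, 0], ![0, -1, 0], ![0, 0, 1], ![0, 0, -1]]

def A : Set V := insert 0 (range pt)

def e1 : Equiv.Perm (Fin 3) := Equiv.swap 0 1
def e2 : Equiv.Perm (Fin 3) := Equiv.swap 0 2

lemma memU {δ : ℝ} (h0 : 0 < δ) (x : V) (k : Fin 6) (h : x - pt k ∈ B (1 + δ)) :
    x ∈ A + (1 : ℝ) • B 1 + δ • B 1 := by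
  have h1 := B_smul (s := (1 + δ)⁻¹) (by positivity) h
  rw [inv_mul_cancel₀ (by positivity)] at h1
  refine ⟨_, ⟨pt k, Or.inr ⟨k, rfl⟩, _, ⟨_, h1, rfl⟩, rfl⟩, _, ⟨_, h1, rfl⟩, ?_⟩
  simp only [add_assoc]
  rw [← add_smul, smul_smul, mul_inv_cancel₀ (by positivity)]
  simp

lemma low : ENNReal.ofReal (162 / 10) ≤ lower (B 1) (A + (1 : ℝ) • B 1) := by
  apply le_liminf_of_le (by isBoundedDefault)
  filter_upwards [Ioo_mem_nhdsGT (show (0 : ℝ) < 1 / 100 by norm_num)] with δ ⟨h0, h1⟩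
  have hc : IsCompact (A + (1 : ℝ) • B 1) :=
    ((finite_range pt).insert 0).isCompact.add (B_compact.smul _)
  have v : ∀ e, ENNReal.ofReal (27 / 5 * δ) ≤ volume (S δ e) := fun e => by
    rw [S, (mp e).measure_preimage (S0_meas δ).nullMeasurableSet]; exact volS0 h0 h1
  have kk : ∀ t : ℝ, |t - -1| = |-t - 1| := fun t => by rw [← abs_neg]; congr 1; ring
  have hsub : (A + (1 : ℝ) • B 1) ∪ ((S δ 1 ∪ S δ e1) ∪ S δ e2) ⊆ A + (1 : ℝ) • B 1 + δ • B 1 := by
    rintro x (hx | ((hx | hx) | hx))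
    · exact ⟨x, hx, 0, ⟨0, by simp [B], by simp⟩, by simp⟩
    · obtain ⟨-, -, -, -, h⟩ := S_dom hx
      change |(|x 0| - 1)| + |x 1| + |x 2| < _ at h
      rcases abs_cases (x 0) with ⟨a, -⟩ | ⟨a, -⟩ <;> rw [a] at h
      · refine memU h0 x 0 ?_
        change |x 0 - 1| + |x 1 - 0| + |x 2 - 0| ≤ _
        rw [sub_zero, sub_zero]; linarith
      · refine memU h0 x 1 ?_
        change |x 0 - -1| + |x 1 - 0| + |x 2 - 0| ≤ _
        rw [sub_zero, sub_zero, kk]; linarith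
    · obtain ⟨-, -, -, -, h⟩ := S_dom hx
      change |(|x 1| - 1)| + |x 0| + |x 2| < _ at h
      rcases abs_cases (x 1) with ⟨a, -⟩ | ⟨a, -⟩ <;> rw [a] at h
      · refine memU h0 x 2 ?_
        change |x 0 - 0| + |x 1 - 1| + |x 2 - 0| ≤ _
        rw [sub_zero, sub_zero]; linarith
      · refine memU h0 x 3 ?_
        change |x 0 - 0| + |x 1 - -1| + |x 2 - 0| ≤ _
        rw [sub_zero, sub_zero, kk]; linarith
    · obtain ⟨-, -, -, -, h⟩ := S_dom hx
      change |(|x 2| - 1)| + |x 1| + |x 0| < _ at h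
      rcases abs_cases (x 2) with ⟨a, -⟩ | ⟨a, -⟩ <;> rw [a] at h
      · refine memU h0 x 4 ?_
        change |x 0 - 0| + |x 1 - 0| + |x 2 - 1| ≤ _
        rw [sub_zero, sub_zero]; linarith
      · refine memU h0 x 5 ?_
        change |x 0 - 0| + |x 1 - 0| + |x 2 - -1| ≤ _
        rw [sub_zero, sub_zero, kk]; linarith
  have hU : ∀ x ∈ A + (1 : ℝ) • B 1, |x 0| + |x 1| + |x 2| ≤ 1 ∨
      |(|x 0| - 1)| + |x 1| + |x 2| ≤ 1 ∨ |x 0| + |(|x 1| - 1)| + |x 2| ≤ 1 ∨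
      |x 0| + |x 1| + |(|x 2| - 1)| ≤ 1 := by
    rintro _ ⟨a, ha, _, ⟨y, hy, rfl⟩, rfl⟩
    have k1 : ∀ t : ℝ, |(|1 + t| - 1)| ≤ |t| := fun t => by
      simpa using abs_abs_sub_abs_le_abs_sub (1 + t) 1
    have k2 : ∀ t : ℝ, |(|-1 + t| - 1)| ≤ |t| := fun t => by
      simpa using abs_abs_sub_abs_le_abs_sub (-1 + t) (-1)
    simp only [B, mem_setOf_eq] at hy
    rcases ha with rfl | ⟨k, rfl⟩
    · left; simpa using hy
    · have := k1 (y 0); have := k1 (y 1); have := k1 (y 2)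
      have := k2 (y 0); have := k2 (y 1); have := k2 (y 2)
      fin_cases k <;> simp [pt]
      · right; left; linarith
      · right; left; linarith
      · right; right; left; linarith
      · right; right; left; linarith
      · right; right; right; linarith
      · right; right; right; linarith
  have d1 : Disjoint (A + (1 : ℝ) • B 1) ((S δ 1 ∪ S δ e1) ∪ S δ e2) := by
    rw [Set.disjoint_left]
    intro x hx hs
    have := neg_abs_le (|x 0| - 1); have := neg_abs_le (|x 1| - 1); have := neg_abs_le (|x 2| - 1)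
    have := abs_nonneg (x 0); have := abs_nonneg (x 1); have := abs_nonneg (x 2)
    rcases hs with (hs | hs) | hs <;> obtain ⟨a, b, c, d, -⟩ := S_dom hs
    · change |x 1| < |x 0| at a; change |x 2| < |x 0| at b; change _ < |x 0| at c
      change 1 < |(|x 0| - 1)| + |x 1| + |x 2| at d
      cases abs_cases (|x 0| - 1) <;> rcases hU x hx with h | h | h | h <;> linarith
    · change |x 0| < |x 1| at a; change |x 2| < |x 1| at b; change _ < |x 1| at c
      change 1 < |(|x 1| - 1)| + |x 0| + |x 2| at d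
      cases abs_cases (|x 1| - 1) <;> rcases hU x hx with h | h | h | h <;> linarith
    · change |x 1| < |x 2| at a; change |x 0| < |x 2| at b; change _ < |x 2| at c
      change 1 < |(|x 2| - 1)| + |x 1| + |x 0| at d
      cases abs_cases (|x 2| - 1) <;> rcases hU x hx with h | h | h | h <;> linarith
  have d2 : Disjoint (S δ 1 ∪ S δ e1) (S δ e2) := by
    rw [Set.disjoint_left]
    rintro x (hx | hx) h2
    · exact lt_asymm (S_dom hx).2.1 (S_dom h2).2.1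
    · exact lt_asymm (S_dom hx).2.1 (S_dom h2).1
  have d3 : Disjoint (S δ 1) (S δ e1) :=
    Set.disjoint_left.2 fun x hx h2 => lt_asymm (S_dom hx).1 (S_dom h2).1
  have h := measure_mono (μ := volume) hsub
  rw [measure_union d1 (((S_meas _ _).union (S_meas _ _)).union (S_meas _ _)),
    measure_union d2 (S_meas _ _), measure_union d3 (S_meas _ _)] at h
  rw [quo, ENNReal.le_div_iff_mul_le (Or.inl (by simpa using h0)) (Or.inl ENNReal.ofReal_ne_top)]
  apply ENNReal.le_sub_of_add_le_left hc.measure_lt_top.ne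
  refine le_trans ?_ h
  gcongr
  refine le_trans ?_ (add_le_add (add_le_add (v _) (v _)) (v _))
  rw [← ENNReal.ofReal_add (by positivity) (by positivity),
    ← ENNReal.ofReal_add (by positivity) (by positivity), ← ENNReal.ofReal_mul (by norm_num)]
  apply ENNReal.ofReal_le_ofReal
  linarith

theorem result : ∃ (d : ℕ) (K : Set (Fin d → ℝ)) (c x₀ : Fin d → ℝ) (r : ℝ) (N : ℕ)
    (x : Fin N → Fin d → ℝ), 1 ≤ d ∧ IsCompact K ∧ Convex ℝ K ∧ (interior K).Nonempty ∧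
    (∀ y ∈ K, (2 : ℝ) • c - y ∈ K) ∧ 0 < r ∧ 1 ≤ N ∧ (∀ i, x i ∈ tr K c x₀ r) ∧
    upper K (tr K c x₀ (2 * r)) < lower K (insert x₀ (range x) + r • K) := by
  refine ⟨3, B 1, 0, 0, 1, 6, pt, by norm_num, B_compact, ?_, ⟨0, ?_⟩, ?_, one_pos, by norm_num,
    ?_, ?_⟩
  · intro x hx y hy a b ha hb hab
    simpa [hab] using B_add (B_smul ha hx) (B_smul hb hy)
  · rw [mem_interior_iff_mem_nhds]
    have : IsOpen {x : V | |x 0| + |x 1| + |x 2| < 1} := isOpen_lt (by fun_prop) (by fun_prop)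
    exact mem_of_superset (this.mem_nhds (by simp)) fun x hx =>
      (le_of_lt hx : |x 0| + |x 1| + |x 2| ≤ 1)
  · intro y hy; simpa [B] using hy
  · intro i
    refine ⟨pt i, ?_, by simp⟩
    fin_cases i <;> simp [B, pt]
  · exact up.trans_lt (lt_of_lt_of_le ((ENNReal.ofReal_lt_ofReal_iff (by norm_num)).2
      (by norm_num)) low)

end Pool.Agent.Results.MP_a80f1a_gt.Octa
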